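import Pool.Agent.Helper71.CK.Goals

set_option autoImplicit false

namespace Pool.Agent.Helper8.CK

open Pool.Agent.CK

theorem val_append (L L' : List (Fin 2 × ℤ)) : val (L ++ L') = val L * val L' := by
  simp [val]

theorem val_cons (p : Fin 2 × ℤ) (L : List (Fin 2 × ℤ)) :
    val (p :: L) = FreeGroup.of p.1 ^ p.2 * val L := by
  simp [val]

theorem inv_cons (p : Fin 2 × ℤ) (L : List (Fin 2 × ℤ)) :
    inv (p :: L) = inv L ++ [(p.1, -p.2)] := by
  simp [inv]

theorem val_inv (L : List (Fin 2 × ℤ)) : val (inv L) = (val L)⁻¹ := by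
  induction L with
  | nil => simp [val, inv]
  | cons p L ih =>
    rw [inv_cons, val_append, ih, val_cons, val_cons]
    simp [val]

theorem adj_append (A B : List (Fin 2 × ℤ)) : adj (A ++ B) ≤ adj A + adj B + 1 := by
  induction A with
  | nil =>
    rw [List.nil_append]
    omega
  | cons p A ih =>
    cases A with
    | nil =>
      cases B with
      | nil => simp [adj]
      | cons q B =>
        simp only [List.cons_append, List.nil_append, adj]
        split_ifs <;> omega
    | cons q A =>
      simp only [List.cons_append, adj] at ih ⊢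
      omega

theorem adj_eq_zero_iff (L : List (Fin 2 × ℤ)) :
    adj L = 0 ↔ L.IsChain (fun a b => a.1 ≠ b.1) := by
  induction L with
  | nil => simp [adj]
  | cons p L ih =>
    cases L with
    | nil => simp [adj]
    | cons q L =>
      rw [List.isChain_cons_cons, ← ih]
      simp only [adj]
      split_ifs with h
      · simp [h]
      · simp [h]

theorem adj_inv (L : List (Fin 2 × ℤ)) (h : adj L = 0) : adj (inv L) = 0 := by
  rw [adj_eq_zero_iff] at h ⊢
  unfold inv
  rw [List.isChain_reverse, List.isChain_map]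
  refine h.imp ?_
  intro a b hab hba
  exact hab hba.symm

theorem adj_tail {p : Fin 2 × ℤ} {L : List (Fin 2 × ℤ)} (h : adj (p :: L) = 0) : adj L = 0 := by
  cases L with
  | nil => rfl
  | cons q L =>
    simp only [adj] at h
    omega

theorem adj_head {p p' : Fin 2 × ℤ} (hp : p.1 = p'.1) (L : List (Fin 2 × ℤ)) :
    adj (p :: L) = adj (p' :: L) := by
  cases L with
  | nil => rfl
  | cons q L =>
    simp only [adj]
    rw [hp]

/-- alternating words with nonzero exponents -/
def Alt (w : FreeGroup (Fin 2)) : Prop :=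
  ∃ L : List (Fin 2 × ℤ), val L = w ∧ adj L = 0 ∧ ∀ p ∈ L, p.2 ≠ 0

theorem alt_step (g : Fin 2) (e : ℤ) (w : FreeGroup (Fin 2)) (h : Alt w) :
    Alt (FreeGroup.of g ^ e * w) := by
  by_cases he : e = 0
  · subst he
    rw [zpow_zero, one_mul]
    exact h
  obtain ⟨L, hv, ha, hn⟩ := h
  cases L with
  | nil =>
    refine ⟨[(g, e)], ?_, rfl, ?_⟩
    · rw [val_cons, hv]
    · intro p hp
      rw [List.mem_singleton] at hp
      rw [hp]
      exact he
  | cons q L =>
    by_cases hq : q.1 = g
    · by_cases hx : e + q.2 = 0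
      · refine ⟨L, ?_, adj_tail ha, fun p hp => hn p (List.mem_cons_of_mem _ hp)⟩
        rw [← hv, val_cons, hq, ← mul_assoc, ← zpow_add, hx, zpow_zero, one_mul]
      · refine ⟨(g, e + q.2) :: L, ?_, ?_, ?_⟩
        · rw [← hv, val_cons, val_cons, hq, ← mul_assoc, ← zpow_add]
        · rw [adj_head (p' := q) hq.symm, ha]
        · intro p hp
          rcases List.mem_cons.mp hp with rfl | hp
          · exact hx
          · exact hn p (List.mem_cons_of_mem _ hp)
    · refine ⟨(g, e) :: q :: L, ?_, ?_, ?_⟩
      · rw [val_cons, hv]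
      · show (if g = q.1 then 1 else 0) + adj (q :: L) = 0
        rw [if_neg (fun h => hq h.symm), ha]
      · intro p hp
        rcases List.mem_cons.mp hp with rfl | hp
        · exact he
        · exact hn p hp

theorem alt_all (w : FreeGroup (Fin 2)) : Alt w := by
  obtain ⟨l, rfl⟩ : ∃ l, FreeGroup.mk l = w := ⟨w.toWord, FreeGroup.mk_toWord⟩
  induction l with
  | nil => exact ⟨[], rfl, rfl, by simp⟩
  | cons a l ih =>
    obtain ⟨x, b⟩ := a
    have h1 : FreeGroup.mk ((x, b) :: l) = FreeGroup.mk [(x, b)] * FreeGroup.mk l := by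
      rw [FreeGroup.mul_mk]
      rfl
    rw [h1]
    cases b with
    | true =>
      have h2 : FreeGroup.mk [(x, true)] = FreeGroup.of x ^ (1 : ℤ) := by
        rw [zpow_one]; rfl
      rw [h2]
      exact alt_step x 1 _ ih
    | false =>
      have h2 : FreeGroup.mk [(x, false)] = FreeGroup.of x ^ (-1 : ℤ) := by
        rw [zpow_neg_one]; rfl
      rw [h2]
      exact alt_step x (-1) _ ih

theorem ex_mul (g : Fin 2) (v w : FreeGroup (Fin 2)) : ex g (v * w) = ex g v + ex g w := by
  unfold ex
  rw [map_mul, toAdd_mul]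

theorem ex_one (g : Fin 2) : ex g 1 = 0 := by
  unfold ex
  rw [map_one, toAdd_one]

theorem ex_inv (g : Fin 2) (v : FreeGroup (Fin 2)) : ex g v⁻¹ = - ex g v := by
  unfold ex
  rw [map_inv, toAdd_inv]

theorem ex_zpow (g h : Fin 2) (x : ℤ) : ex g (FreeGroup.of h ^ x) = if h = g then x else 0 := by
  unfold ex
  rw [map_zpow, FreeGroup.lift_apply_of, toAdd_zpow]
  simp

theorem ex_val (g : Fin 2) (L : List (Fin 2 × ℤ)) :
    ex g (val L) = (L.map (fun p => if p.1 = g then p.2 else 0)).sum := by
  induction L with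
  | nil => simp [val, ex_one]
  | cons p L ih => rw [val_cons, ex_mul, ih, ex_zpow, List.map_cons, List.sum_cons]

theorem ex_letter (g i : Fin 2) : (ex g (FreeGroup.of i)).natAbs ≤ 1 := by
  have h := ex_zpow g i 1
  rw [zpow_one] at h
  rw [h]
  split_ifs <;> simp

theorem ex_short (g : Fin 2) (N : ℕ) (w : FreeGroup (Fin 2)) (h : Short N w) :
    (ex g w).natAbs ≤ N := by
  obtain ⟨L, hL, hx, rfl⟩ := h
  refine le_trans ?_ hL
  clear hL
  induction L with
  | nil => simp [ex_one]
  | cons x L ih =>
    have h1 : (ex g x).natAbs ≤ 1 := by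
      obtain ⟨y, i, hy⟩ := hx x List.mem_cons_self
      rcases hy with hy | hy
      · have : ex g x = ex g (FreeGroup.of i) := by
          rw [hy, ex_mul, ex_mul, ex_inv]; ring
        rw [this]
        exact ex_letter g i
      · have : ex g x = - ex g (FreeGroup.of i) := by
          rw [hy, ex_mul, ex_mul, ex_inv, ex_inv]; ring
        rw [this, Int.natAbs_neg]
        exact ex_letter g i
    have h2 := ih (fun z hz => hx z (List.mem_cons_of_mem _ hz))
    rw [List.prod_cons, ex_mul, List.length_cons]
    omega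

theorem words : S_WORDS := by
  refine ⟨val_append, val_inv, ?_, alt_all, ex_val, ?_, ex_short⟩
  · intro L₁ L₂ L₃ h1 h2 h3
    have e1 := adj_append (inv L₁ ++ L₂) L₃
    have e2 := adj_append (inv L₁) L₂
    rw [adj_inv L₁ h1, h2] at e2
    rw [h3] at e1
    omega
  · intro g v w
    exact ⟨ex_mul g v w, ex_inv g v⟩

end Pool.Agent.Helper8.CK
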